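import Pool.Agent.DCQ.Par

/-!
# MP_662cbb_co: an upper bound for the number of Delsarte cliques
-/

set_option autoImplicit false

namespace Pool.Agent.Results.MP_662cbb_co.EntropyBound

open Pool.Agent.DCQ

theorem prod_Icc (f : ℕ → ℝ) (d : ℕ) : ∏ i ∈ Finset.Icc 1 d, f i = ∏ i ∈ Finset.range d, f (i + 1) := by
  induction d with
  | zero => simp
  | succ d ih => rw [Finset.prod_Icc_succ_top (by omega), Finset.prod_range_succ, ih]

/-- Every strongly regular graph with the parameters of the symplectic graph `Sp(2d, q)`, `d ≥ 2`,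
has fewer than `2 ^ (q / (q - 1)) * (q + 1) (q ^ 2 + 1) ⋯ (q ^ d + 1)` Delsarte cliques. -/
theorem result (q d : ℕ) (hq : 2 ≤ q) (hd : 2 ≤ d) (V : Type) [Fintype V] [DecidableEq V]
    (G : SimpleGraph V) [DecidableRel G.Adj]
    (hG : G.IsSRGWith ((q ^ (2 * d) - 1) / (q - 1)) (q * (q ^ (2 * d - 2) - 1) / (q - 1))
      (q ^ 2 * (q ^ (2 * d - 4) - 1) / (q - 1) + q - 1) ((q ^ (2 * d - 2) - 1) / (q - 1))) :
    ({C : Finset V | IsDelsarteClique G (q * (q ^ (2 * d - 2) - 1) / (q - 1)) C}.ncard : ℝ) <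
      (2 : ℝ) ^ ((q : ℝ) / ((q : ℝ) - 1)) * ∏ i ∈ Finset.Icc 1 d, ((q : ℝ) ^ i + 1) := by
  obtain ⟨p, rfl⟩ : ∃ p, q = p + 1 := ⟨q - 1, by omega⟩
  obtain ⟨t, rfl⟩ : ∃ t, d = t + 2 := ⟨d - 2, by omega⟩
  have hp : 1 ≤ p := by omega
  obtain ⟨e, he, h1, h2, h3, h4, h5⟩ := params p t hp
  rw [h2, h3, h5] at hG
  rw [h3]
  obtain ⟨F, hF, hN⟩ := fam he hG h4 rfl rfl
  rw [hN]
  have hK : 2 * e < (p + 1) * e + 1 := by nlinarith
  have hcount := hF.count hK hG.card (t + 2)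
  refine lt_of_le_of_lt hcount ?_
  have hpR : (1 : ℝ) ≤ p := by exact_mod_cast hp
  have heR : (1 : ℝ) ≤ e := by exact_mod_cast he
  have hKR : (0 : ℝ) < (((p + 1) * e + 1 : ℕ) : ℝ) := by positivity
  obtain ⟨ε, hε⟩ : ∃ ε : ℝ, ε = (e : ℝ) / (((p + 1) * e + 1 : ℕ) : ℝ) := ⟨_, rfl⟩
  rw [← hε]
  have hε0 : 0 < ε := by rw [hε]; positivity
  have hq0 : (0 : ℝ) < (p : ℝ) + 1 := by positivity
  have hε1 : ε < ((p : ℝ) + 1)⁻¹ := by
    rw [hε, div_lt_iff₀ hKR, inv_mul_eq_div, lt_div_iff₀ hq0]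
    push_cast
    nlinarith
  obtain ⟨Q, hQ⟩ : ∃ Q : ℝ, Q = (((p + 1) * (p * e + 1) : ℕ) : ℝ) := ⟨_, rfl⟩
  rw [← hQ]
  have hQ1 : Q = ((p : ℝ) + 1) ^ (t + 2) := by
    rw [hQ, ← h1]
    push_cast
    ring
  have hQ0 : 0 < Q := by rw [hQ1]; positivity
  -- the powers
  have hpow : ∀ i, i ≤ t + 2 → ε ^ i * Q ≤ ((p : ℝ) + 1) ^ (t + 2 - i) := by
    intro i hi
    calc ε ^ i * Q ≤ ((p : ℝ) + 1)⁻¹ ^ i * Q :=
          mul_le_mul_of_nonneg_right (pow_le_pow_left₀ hε0.le hε1.le i) hQ0.le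
      _ = ((p : ℝ) + 1) ^ (t + 2 - i) := by
          rw [hQ1, inv_pow, inv_mul_eq_div, div_eq_iff (by positivity), ← pow_add]
          congr 1
          omega
  have hprod : ∏ i ∈ Finset.range (t + 2), (1 + ε ^ i * Q) ≤
      ∏ i ∈ Finset.Icc 1 (t + 2), ((((p + 1 : ℕ) : ℝ)) ^ i + 1) := by
    rw [prod_Icc, ← Finset.prod_range_reflect]
    refine Finset.prod_le_prod (fun i _ => by positivity) fun i hi => ?_
    rw [Finset.mem_range] at hi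
    have h6 := hpow (t + 2 - 1 - i) (by omega)
    have h7 : t + 2 - (t + 2 - 1 - i) = i + 1 := by omega
    rw [h7] at h6
    rw [Nat.cast_add, Nat.cast_one]
    linarith
  have hexp : ε ^ (t + 2) * Q / (1 - ε) < (((p + 1 : ℕ) : ℝ)) / ((((p + 1 : ℕ) : ℝ)) - 1) := by
    have h6 := hpow (t + 2) le_rfl
    rw [Nat.sub_self, pow_zero] at h6
    have h7 : ((p : ℝ) + 1)⁻¹ < 1 := inv_lt_one_of_one_lt₀ (by linarith)
    have h8 : 0 < 1 - ε := by linarith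
    have h9 : ((p : ℝ) + 1)⁻¹ * ((p : ℝ) + 1) = 1 := inv_mul_cancel₀ hq0.ne'
    calc ε ^ (t + 2) * Q / (1 - ε) ≤ 1 / (1 - ε) := div_le_div_of_nonneg_right h6 h8.le
      _ < (((p + 1 : ℕ) : ℝ)) / ((((p + 1 : ℕ) : ℝ)) - 1) := by
          push_cast
          rw [add_sub_cancel_right, div_lt_div_iff₀ h8 (by linarith)]
          have h10 := mul_lt_mul_of_pos_right hε1 hq0
          rw [h9] at h10
          linarith
  have hpos : 0 < ∏ i ∈ Finset.range (t + 2), (1 + ε ^ i * Q) :=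
    Finset.prod_pos fun i _ => by positivity
  calc (∏ i ∈ Finset.range (t + 2), (1 + ε ^ i * Q)) * (2 : ℝ) ^ (ε ^ (t + 2) * Q / (1 - ε))
      < (∏ i ∈ Finset.range (t + 2), (1 + ε ^ i * Q)) *
        (2 : ℝ) ^ ((((p + 1 : ℕ) : ℝ)) / ((((p + 1 : ℕ) : ℝ)) - 1)) :=
        mul_lt_mul_of_pos_left (Real.rpow_lt_rpow_of_exponent_lt (by norm_num) hexp) hpos
    _ ≤ (∏ i ∈ Finset.Icc 1 (t + 2), ((((p + 1 : ℕ) : ℝ)) ^ i + 1)) *
        (2 : ℝ) ^ ((((p + 1 : ℕ) : ℝ)) / ((((p + 1 : ℕ) : ℝ)) - 1)) :=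
        mul_le_mul_of_nonneg_right hprod (by positivity)
    _ = _ := mul_comm _ _

end Pool.Agent.Results.MP_662cbb_co.EntropyBound
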