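import Pool.Agent.DCQ.Tur

/-!
# MP_662cbb_co: the case `d = 3`
-/

set_option autoImplicit false

namespace Pool.Agent.Results.MP_662cbb_co.RankThree

open Pool.Agent.DCQ

/-- Let `q ≥ 2` and let `m` be a natural number with
`(m + 1) (q ^ 2 + q - 1) > q ^ 3 + q ^ 2 + q - 1 + (q - 1) ⌊(m + 1) ^ 2 / 4⌋`. Then every strongly
regular graph with the parameters of the symplectic graph `Sp(6, q)` has at most
`m (q ^ 2 + 1) (q ^ 3 + 1)` Delsarte cliques. For `q = 2, 3, 4, 5` one may take `m = q + 1`. -/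
theorem result (q m : ℕ) (hq : 2 ≤ q)
    (hm : q ^ 3 + q ^ 2 + q - 1 + (q - 1) * ((m + 1) ^ 2 / 4) < (m + 1) * (q ^ 2 + q - 1))
    (V : Type) [Fintype V] [DecidableEq V] (G : SimpleGraph V) [DecidableRel G.Adj]
    (hG : G.IsSRGWith ((q ^ (2 * 3) - 1) / (q - 1)) (q * (q ^ (2 * 3 - 2) - 1) / (q - 1))
      (q ^ 2 * (q ^ (2 * 3 - 4) - 1) / (q - 1) + q - 1) ((q ^ (2 * 3 - 2) - 1) / (q - 1))) :
    {C : Finset V | IsDelsarteClique G (q * (q ^ (2 * 3 - 2) - 1) / (q - 1)) C}.ncard ≤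
      m * (q ^ 2 + 1) * (q ^ 3 + 1) := by
  obtain ⟨p, rfl⟩ : ∃ p, q = p + 1 := ⟨q - 1, by omega⟩
  have hp : 1 ≤ p := by omega
  obtain ⟨e, he, h1, h2, h3, h4, h5⟩ := params p 1 hp
  have he' : e = p + 2 := by
    have h6 : p * e = p * (p + 2) := by
      have h7 : (p + 1) ^ (1 + 1) = p * (p + 2) + 1 := by ring
      omega
    exact Nat.eq_of_mul_eq_mul_left (by omega) h6
  subst he'
  have e1 : 2 * (1 + 2) = 2 * 3 := rfl
  rw [e1] at h2 h3 h4 h5
  rw [h2, h3, h5] at hG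
  rw [h3]
  have hl := hG.of_adj
  obtain ⟨F, hF, hN⟩ := fam he hG h4 rfl rfl
  rw [hN]
  have hadj : ∀ x y, G.Adj x y → (F.filter fun C => x ∈ C ∧ y ∈ C).card ≤ m := by
    intro x y hxy
    refine hF.edge_le (by omega) hxy (L := (p + 1) ^ 3 + (p + 1) ^ 2 + (p + 1) - 1) ?_ ?_
    · have h6 := hl x y hxy
      have h7 : (Finset.univ.filter fun w => G.Adj x w ∧ G.Adj y w).card =
          Fintype.card (G.commonNeighbors x y) := by
        rw [← Set.toFinset_card]
        congr 1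
        ext w
        simp [SimpleGraph.mem_commonNeighbors]
      rw [h7, h6]
      have h8 : (p + 1) ^ 3 + (p + 1) ^ 2 + (p + 1) + 1 = (p + 2) * (p * (p + 2) + 2) := by ring
      omega
    · have h6 : (p + 1) * (p + 2) + 1 - 2 = (p + 1) ^ 2 + (p + 1) - 1 := by
        have h7 : (p + 1) * (p + 2) = (p + 1) ^ 2 + (p + 1) := by ring
        omega
      have h8 : p + 2 - 2 = p + 1 - 1 := rfl
      rw [h6, h8]
      exact hm
  have hcount := hF.edge_count hG.regular hadj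
  rw [hG.card] at hcount
  have h9 : (p + 1) * (p + 2) + 1 - 1 = (p + 1) * (p + 2) := rfl
  rw [h9] at hcount
  have h10 : F.card * (((p + 1) * (p + 2) + 1) * ((p + 1) * (p + 2))) ≤
      (m * ((p + 1) ^ 2 + 1) * ((p + 1) ^ 3 + 1)) *
        (((p + 1) * (p + 2) + 1) * ((p + 1) * (p + 2))) := by
    refine hcount.trans (le_of_eq ?_)
    ring
  exact Nat.le_of_mul_le_mul_right h10 (by positivity)

end Pool.Agent.Results.MP_662cbb_co.RankThree
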